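import Pool.Agent.Lib.NPL.CompFin

/-!
# MP_b736bc_co: the order of growth for graphs with at least `u - 1` dominating vertices
-/

namespace Pool.Agent.Results.MP_b736bc_co.ComponentPower

open SimpleGraph Filter Pb736 NPL

/-- Let `1 ≤ u ≤ ω`, `H₀` a nonempty finite graph with `c` connected components and `H = K_{u-1} ∨ H₀` (the join;
`H = KJ (u - 1) H₀`), such that `H` contains neither `K_u ∨ I_{Δ+1}` nor `K_{ω+1}`.  Then there are reals `a > 0` and `b` such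
that for all large `p` the number `ex_u(p, H, {K_u ∨ I_{Δ+1}, K_{ω+1}})` is finite and lies between `a p^c` and `b p^c`. -/
theorem result (u Δ ω : ℕ) (hu : 1 ≤ u) (huω : u ≤ ω) (W : Type) [Fintype W] [Nonempty W] (H₀ : SimpleGraph W)
    (hH : Adm u Δ ω (KJ (u - 1) H₀)) :
    ∃ a b : ℝ, 0 < a ∧ ∀ᶠ p : ℕ in atTop, exU u Δ ω (KJ (u - 1) H₀) p ≠ ⊤ ∧
      a * (p : ℝ) ^ Nat.card H₀.ConnectedComponent ≤ ((exU u Δ ω (KJ (u - 1) H₀) p).toNat : ℝ) ∧
      ((exU u Δ ω (KJ (u - 1) H₀) p).toNat : ℝ) ≤ b * (p : ℝ) ^ Nat.card H₀.ConnectedComponent :=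
  power_law hu huω H₀ hH

end Pool.Agent.Results.MP_b736bc_co.ComponentPower
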