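import Pool.Agent.Lib.Pb736.Fin2

/-!
# MP_b736bc_co: linear growth of `ex_u(p, H, {K_u ∨ I_{Δ+1}, K_{ω+1}})` and the constant `P_u(H, Δ, ω)`
-/

namespace Pool.Agent.Results.MP_b736bc_co.GeneratedConstant

open SimpleGraph Filter Topology Pb736

/-- Let `u ≥ 1` and let `H` be a finite graph that contains `K_u`.  Write `F = {K_u ∨ I_{Δ+1}, K_{ω+1}}` and `h = |V(H)|`.
(1) `ex_u(p, H, F) = O(p)` if and only if `H` contains a member of `F` (then `ex_u = 0`) or `H` is generated: from some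
`u`-clique of `H` all vertices of `H` are reached by adding, again and again, a vertex adjacent to all vertices of a
`u`-clique of `H` of reached vertices.  (2) If `H` is `F`-free and not generated then `ex_u(p, H, F) ≥ c p^(1+δ)` for all
large `p`.  (3) If `H` is generated, the limit `P = P_u(H, Δ, ω)` of `ex_u(p, H, F) / p` exists,
`ex_u(p, H, F) ≤ P p` for every `p`, `P ≤ (u! / |Aut H|) Δ^(h-u)`, and if `H` is `F`-free then `P > 0` and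
`ex_u(p, H, F)` is a maximum (it is attained).  (4) If `H` is generated and `K_{ω+1}`-free then
`P_u(H, Δ, ω) / Δ^(h-u)` converges, as `Δ → ∞`, to a constant `π` with `0 < π ≤ u! / |Aut H|`; and
`π = u! / |Aut H|` if `H` is `(u+1)`-colourable and `ω ≥ u + 1`. -/
theorem result (u : ℕ) (hu : 1 ≤ u) {W : Type} [Fintype W] (H : SimpleGraph W) (hc : ¬ H.CliqueFree u) :
    (∀ Δ ω : ℕ, (∃ C : ℕ, ∀ p, exU u Δ ω H p ≤ ((C * p : ℕ) : ℕ∞)) ↔ (¬ Adm u Δ ω H ∨ Generated u H)) ∧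
    (∀ Δ ω : ℕ, Adm u Δ ω H → ¬ Generated u H → ∃ c δ : ℝ, 0 < c ∧ 0 < δ ∧
      ∀ᶠ p : ℕ in atTop, ∀ N : ℕ, (N : ℝ) ≤ c * (p : ℝ) ^ (1 + δ) → (N : ℕ∞) ≤ exU u Δ ω H p) ∧
    (Generated u H →
      (∀ Δ ω : ℕ, ∃ P : ℝ, Tendsto (fun p : ℕ => ((exU u Δ ω H p).toNat : ℝ) / p) atTop (𝓝 P) ∧
        (∀ p : ℕ, ((exU u Δ ω H p).toNat : ℝ) ≤ P * p) ∧
        P ≤ (u.factorial : ℝ) / Nat.card (H ≃g H) * (Δ : ℝ) ^ (Fintype.card W - u) ∧
        (Adm u Δ ω H → 0 < P ∧ ∀ p : ℕ, ∃ (n : ℕ) (G : SimpleGraph (Fin n)),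
          Adm u Δ ω G ∧ cliqueCount G u = p ∧ (G.copyCount H : ℕ∞) = exU u Δ ω H p)) ∧
      (∀ ω : ℕ, H.CliqueFree (ω + 1) → ∀ P : ℕ → ℝ,
        (∀ Δ, 1 ≤ Δ → Tendsto (fun p : ℕ => ((exU u Δ ω H p).toNat : ℝ) / p) atTop (𝓝 (P Δ))) →
        ∃ π : ℝ, 0 < π ∧ π ≤ (u.factorial : ℝ) / Nat.card (H ≃g H) ∧
          Tendsto (fun Δ : ℕ => P Δ / (Δ : ℝ) ^ (Fintype.card W - u)) atTop (𝓝 π) ∧
          (H.Colorable (u + 1) → u + 1 ≤ ω → π = (u.factorial : ℝ) / Nat.card (H ≃g H)))) :=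
  main2 u hu H hc

end Pool.Agent.Results.MP_b736bc_co.GeneratedConstant
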