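import Pool.Agent.Lib.NPL.ConeFin

/-!
# MP_b736bc_co: for every `u ≥ 2` a graph for which `ex_u(p, H, F)` is not of the order of a power of `p`
-/

namespace Pool.Agent.Results.MP_b736bc_co.NoPowerLaw

open SimpleGraph Filter Pb736 NPL

/-- Let `T9` be the graph on 9 vertices which consists of a triangle `x_0 x_1 x_2` and of three paths `x_i a_i b_i x_{i+1}`
(indices modulo 3), `u ≥ 2`, `H = K_{u-2} ∨ T9` (the join; `H = TU (u - 2)`), `Δ ≥ 1`, `ω ≥ u + 1`, and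
`ex p = ex_u(p, H, {K_u ∨ I_{Δ+1}, K_{ω+1}})`.  Then
(1) for all large `p` every natural number `N ≤ p^4 exp (-6 √(log p))` satisfies `N ≤ ex p`;
(2) for every `ε > 0`, `ex p` is finite and `ex p ≤ ε p^4` for all large `p`;
(3) there are no reals `α`, `c > 0`, `C` with `c p^α ≤ ex p ≤ C p^α` for all large `p`. -/
theorem result (u Δ ω : ℕ) (hu : 2 ≤ u) (hΔ : 1 ≤ Δ) (hω : u + 1 ≤ ω) :
    (∀ᶠ p : ℕ in atTop, ∀ N : ℕ, (N : ℝ) ≤ (p : ℝ) ^ 4 * Real.exp (-6 * √(Real.log p)) →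
      (N : ℕ∞) ≤ exU u Δ ω (TU (u - 2)) p) ∧
    (∀ ε : ℝ, 0 < ε → ∀ᶠ p : ℕ in atTop,
      exU u Δ ω (TU (u - 2)) p ≠ ⊤ ∧ ((exU u Δ ω (TU (u - 2)) p).toNat : ℝ) ≤ ε * (p : ℝ) ^ 4) ∧
    ¬ ∃ α c C : ℝ, 0 < c ∧ ∀ᶠ p : ℕ in atTop, c * (p : ℝ) ^ α ≤ ((exU u Δ ω (TU (u - 2)) p).toNat : ℝ) ∧
      ((exU u Δ ω (TU (u - 2)) p).toNat : ℝ) ≤ C * (p : ℝ) ^ α :=
  all_u hu hΔ hω

end Pool.Agent.Results.MP_b736bc_co.NoPowerLaw
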