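import Pool.Agent.Lib.Pb736.GlueFin

/-!
# MP_b736bc_co: the constant `P_u(H, Δ, ω)` for graphs glued along `u`-cliques
-/

namespace Pool.Agent.Results.MP_b736bc_co.TreeGluings

open SimpleGraph Filter Topology Pb736

/-- Let `1 ≤ u < ω`, `H` a finite graph on `h` vertices, `H'` a spanning subgraph of `H` (for instance `H' = H`) which is
glued along `u`-cliques from graphs `K_u ∨ L`, where every `L` is complete, or complete `(ω-u)`-partite with equal parts, or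
(`ω - u = 2`) connected bipartite with a perfect matching, or `Good (ω-u)`.  For `F = {K_u ∨ I_{Δ+1}, K_{ω+1}}` write
`P Δ = lim ex_u(p, H, F) / p` (it exists, is finite and `ex_u(p, H, F) ≤ (P Δ) p`), and
`dens u t H = u! (number of proper t-colourings of H) / (t (t-1) ... (t-u+1) (t-u)^(h-u))`.  Then
`|Aut H| P Δ ≤ dens u ω H' Δ^(h-u)` for all `Δ`; for `u < t ≤ ω`, `s ≥ 1` and `Δ = s (t-u)` the complete `t`-partite graphs with
parts of size `s` give `|Aut H| P Δ ≥ dens u t H Δ^(h-u) s (s-1) ... (s-h+1) / s^h`; and if the two constants agree for some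
`t` (they do for `H' = H`, `t = ω`) then `P Δ / Δ^(h-u) → dens u t H / |Aut H|` as `Δ → ∞`. -/
theorem result (u ω : ℕ) (hu : 1 ≤ u) (hω : u + 1 ≤ ω) (W : Type) [Fintype W] (H H' : SimpleGraph W)
    (hle : H' ≤ H) (hH : Glued u (ω - u) H' Finset.univ) :
    ∃ P : ℕ → ℝ, (∀ Δ, Tendsto (fun p : ℕ => ((exU u Δ ω H p).toNat : ℝ) / p) atTop (𝓝 (P Δ))) ∧
      (∀ Δ p : ℕ, exU u Δ ω H p ≠ ⊤ ∧ ((exU u Δ ω H p).toNat : ℝ) ≤ P Δ * p) ∧
      (∀ Δ, (Nat.card (H ≃g H) : ℝ) * P Δ ≤ dens u ω H' * (Δ : ℝ) ^ (Fintype.card W - u)) ∧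
      (∀ t s : ℕ, u + 1 ≤ t → t ≤ ω → 1 ≤ s →
        dens u t H * ((s.descFactorial (Fintype.card W) : ℝ) / (s : ℝ) ^ Fintype.card W) *
        ((s * (t - u) : ℕ) : ℝ) ^ (Fintype.card W - u) ≤ (Nat.card (H ≃g H) : ℝ) * P (s * (t - u))) ∧
      (∀ t : ℕ, u + 1 ≤ t → t ≤ ω → dens u t H = dens u ω H' →
        Tendsto (fun Δ : ℕ => P Δ / (Δ : ℝ) ^ (Fintype.card W - u)) atTop
          (𝓝 (dens u t H / Nat.card (H ≃g H)))) :=
  glued_main hu hω hle hH

end Pool.Agent.Results.MP_b736bc_co.TreeGluings
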